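import Mathlib
import Pool.Agent.X34.CY.Stm

/-! Part `CY_BG` of project CY (MP_6efeb4_pr): the statement `S_BG`. -/

set_option autoImplicit false

namespace Pool.Agent.X25.CY

open Finset Pool.Agent.X34.CY

lemma mem_Wu {k R : ℕ} {w : Fin k → ℤ} : w ∈ Wu k R ↔ ∑ i, |w i| ≤ (R : ℤ) := by
  unfold Wu
  rw [Finset.mem_filter, Fintype.mem_piFinset]
  constructor
  · exact fun h => h.2
  · intro h
    refine ⟨fun i => ?_, h⟩
    have h1 : |w i| ≤ ∑ j, |w j| :=
      Finset.single_le_sum (f := fun j => |w j|) (fun j _ => abs_nonneg _) (Finset.mem_univ i)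
    have h2 : |w i| ≤ (R : ℤ) := h1.trans h
    rw [Finset.mem_Icc]
    exact abs_le.mp h2

lemma abs_le_of_mem {k R : ℕ} {w : Fin k → ℤ} (h : w ∈ Wu k R) (i : Fin k) : |w i| ≤ (R : ℤ) := by
  have h1 : |w i| ≤ ∑ j, |w j| :=
    Finset.single_le_sum (f := fun j => |w j|) (fun j _ => abs_nonneg _) (Finset.mem_univ i)
  exact h1.trans (mem_Wu.mp h)

theorem t_BG : S_BG := by
  intro hL1 k R
  refine ⟨?_, ?_, ?_⟩
  · intro w hw
    unfold Wd at hw
    rw [Finset.mem_filter, Fintype.mem_piFinset] at hw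
    rw [mem_Wu]
    have h1 : ∑ i, |w i| = ∑ i, w i := by
      refine Finset.sum_congr rfl fun i _ => ?_
      have := hw.1 i
      rw [Finset.mem_Icc] at this
      exact abs_of_nonneg this.1
    rw [h1]
    exact hw.2
  · intro w hw w' hw' hne
    have h1 : ∃ i, w i ≠ w' i := by
      by_contra hcon
      push Not at hcon
      exact hne (funext hcon)
    obtain ⟨i, hi⟩ := h1
    have hdvd : (univ.gcd fun i => (w i - w' i).natAbs) ∣ (w i - w' i).natAbs :=
      Finset.gcd_dvd (Finset.mem_univ i)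
    have hpos : 0 < (w i - w' i).natAbs := by
      rw [Int.natAbs_pos]
      exact sub_ne_zero.mpr hi
    have hle := Nat.le_of_dvd hpos hdvd
    have h2 := abs_le.mp (abs_le_of_mem hw i)
    have h3 := abs_le.mp (abs_le_of_mem hw' i)
    have h4 : (w i - w' i).natAbs ≤ 2 * R := by omega
    exact hle.trans h4
  · intro g hg w hw
    refine le_trans ?_ (hL1 k (2 * R / g))
    have hg0 : (0 : ℤ) < (g : ℤ) := by exact_mod_cast hg
    refine Finset.card_le_card_of_injOn (fun w' i => (w' i - w i) / (g : ℤ)) ?_ ?_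
    · intro w' hw'
      rw [Finset.mem_coe, Finset.mem_filter] at hw'
      rw [Finset.mem_coe, mem_Wu]
      have h1 : (∑ i, |(w' i - w i) / (g : ℤ)|) * g ≤ 2 * R := by
        rw [Finset.sum_mul]
        have h2 : ∀ i, |(w' i - w i) / (g : ℤ)| * g ≤ |w' i| + |w i| := by
          intro i
          have h3 : |(w' i - w i) / (g : ℤ)| * g = |w' i - w i| := by
            have h4 : (g : ℤ) = |(g : ℤ)| := (abs_of_pos hg0).symm
            conv_lhs => rw [h4]
            rw [← abs_mul, ← h4, Int.ediv_mul_cancel (hw'.2 i)]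
          rw [h3]
          exact abs_sub _ _
        calc ∑ i, |(w' i - w i) / (g : ℤ)| * g ≤ ∑ i, (|w' i| + |w i|) :=
              Finset.sum_le_sum fun i _ => h2 i
          _ = ∑ i, |w' i| + ∑ i, |w i| := Finset.sum_add_distrib
          _ ≤ R + R := add_le_add (mem_Wu.mp hw'.1) (mem_Wu.mp hw)
          _ = 2 * R := by ring
      push_cast
      exact (Int.le_ediv_iff_mul_le hg0).mpr h1
    · intro w1 h1 w2 h2 h12
      rw [Finset.mem_coe, Finset.mem_filter] at h1 h2
      funext i
      have h3 := congrFun h12 i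
      simp only at h3
      have h4 := Int.ediv_mul_cancel (h1.2 i)
      have h5 := Int.ediv_mul_cancel (h2.2 i)
      rw [h3, h5] at h4
      omega

end Pool.Agent.X25.CY
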